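import Pool.Agent.Q299.Thr.Main

/-!
# MP_cca6ac_pr, Q1: the negated form holds

The monotone property (two different edges share a vertex, or there are at least `n ^ (1/4)` edges)
has the threshold pair `L(n, 0) = n ^ (1/4) / n ^ 2`, `L(n, d) = 1 / n ^ 2` for `d ≥ 1`, and
`U(n, d) = max (n ^ (1/4)) (d + 1) / n ^ 2`. At `d = 1` the ratio `U / L` tends to infinity.
-/

namespace Pool.Agent.Results.MP_cca6ac_pr.GapNotFunctionOfD

open MeasureTheory ProbabilityTheory Filter Topology Asymptotics Q299.Dep Q299.Thr

lemma div_tendsto {p : ℕ → ℝ} {V : ℕ → ℝ} (hV : ∀ᶠ n in atTop, V n ≠ 0)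
    (h : p =o[atTop] V) : Tendsto (fun n => p n / V n) atTop (𝓝 0) :=
  (isLittleO_iff_tendsto' (hV.mono fun _ hn h0 => absurd h0 hn)).1 h

lemma ofReal_tendsto {f : ℕ → ℝ} {x : ℝ} (h : Tendsto f atTop (𝓝 x)) :
    Tendsto (fun n => ENNReal.ofReal (f n)) atTop (𝓝 (ENNReal.ofReal x)) :=
  ENNReal.tendsto_ofReal h

theorem isThresholdPair : IsThresholdPair CherryOrMany L U := by
  classical
  have ev1 : ∀ᶠ n : ℕ in atTop, 1 ≤ n := eventually_ge_atTop 1
  have ev4 : ∀ᶠ n : ℕ in atTop, 4 ≤ n := eventually_ge_atTop 4
  refine ⟨fun n d hn => L_pos hn d, L_le_U, ?_, ?_, ?_⟩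
  · -- below
    intro d p _ h01 hp μ hμ
    have hr : Tendsto (fun n => p n / L n (d n)) atTop (𝓝 0) :=
      div_tendsto (ev1.mono fun n hn => (L_pos hn (d n)).ne') hp
    have hr2 : Tendsto (fun n => ENNReal.ofReal (p n / L n (d n) + (p n / L n (d n)) ^ 2)) atTop
        (𝓝 0) := by
      have := ofReal_tendsto (hr.add (hr.pow 2))
      simpa using this
    refine tendsto_of_tendsto_of_tendsto_of_le_of_le' tendsto_const_nhds hr2 ?_ ?_
    · exact Eventually.of_forall fun n => zero_le
    · filter_upwards [ev1] with n hn
      exact below_bound hn (h01 n).1 (hμ n)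
  · -- above
    intro d p _ h01 hp μ hμ
    have hpos : ∀ᶠ n in atTop, 0 < p n := by
      filter_upwards [ev1, hp.bound (by norm_num : (0 : ℝ) < 1)] with n hn hb
      have hU : 0 < U n (d n) := (L_pos hn (d n)).trans_le (L_le_U n (d n))
      rw [Real.norm_of_nonneg hU.le, Real.norm_of_nonneg (h01 n).1, one_mul] at hb
      linarith
    have hs : Tendsto (fun n => U n (d n) / p n) atTop (𝓝 0) :=
      div_tendsto (hpos.mono fun n hn => hn.ne') hp
    have hs1 : ∀ᶠ n in atTop, U n (d n) / p n ≤ 1 / 8 :=
      hs.eventually_le_const (by norm_num)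
    have hs2 : Tendsto (fun n => 1 - ENNReal.ofReal (16 * (U n (d n) / p n))) atTop (𝓝 1) := by
      have h1 := ofReal_tendsto (hs.const_mul 16)
      simp only [mul_zero, ENNReal.ofReal_zero] at h1
      have h2 := ENNReal.Tendsto.sub (tendsto_const_nhds (x := (1 : ENNReal)) (f := atTop (α := ℕ)))
        h1 (Or.inl ENNReal.one_ne_top)
      simpa using h2
    refine tendsto_of_tendsto_of_tendsto_of_le_of_le' hs2 tendsto_const_nhds ?_ ?_
    · filter_upwards [ev4, hpos, hs1] with n hn hp0 hs
      exact above_bound (by omega) hp0 (hμ n) hs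
    · filter_upwards with n
      have := (hμ n).prob
      exact prob_le_one
  · -- between
    intro d p hd h01 hL hU
    have hLpos : ∀ᶠ n in atTop, 0 < L n (d n) := ev1.mono fun n hn => L_pos hn (d n)
    have hppos : ∀ᶠ n in atTop, 0 < p n := by
      filter_upwards [hLpos, hL.bound (by norm_num : (0 : ℝ) < 1)] with n hn hb
      rw [Real.norm_of_nonneg hn.le, Real.norm_of_nonneg (h01 n).1, one_mul] at hb
      linarith
    have hd1 : ∀ᶠ n in atTop, 1 ≤ d n := by
      filter_upwards [hLpos, hppos, hL.bound (by norm_num : (0 : ℝ) < 1 / 2),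
        hU.bound (by norm_num : (0 : ℝ) < 1 / 2)] with n hLn hpn hb1 hb2
      by_contra hcon
      have hd0 : d n = 0 := by omega
      have hUn : 0 < U n (d n) := hLn.trans_le (L_le_U n (d n))
      rw [Real.norm_of_nonneg hLn.le, Real.norm_of_nonneg hpn.le] at hb1
      rw [Real.norm_of_nonneg hUn.le, Real.norm_of_nonneg hpn.le] at hb2
      have h1 : U n (d n) ≤ max 1 (L n (d n) / L n (d n)) * U n (d n) := by
        have := le_max_left (1 : ℝ) (L n (d n) / L n (d n))
        nlinarith
      -- at `d = 0` the two thresholds agree for `n ≥ 1`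
      by_cases hn1 : 1 ≤ n
      · have h2 : U n (d n) = L n (d n) := by
          unfold U L
          rw [hd0, if_pos rfl]
          congr 1
          apply max_eq_left
          have := a_ge_one hn1
          push_cast
          linarith
        rw [h2] at hb2
        linarith
      · have hn0 : n = 0 := by omega
        have h2 : L n (d n) = 0 := by
          unfold L
          rw [hn0]
          simp
        linarith
    constructor
    · -- a law that has the property
      refine ⟨fun n => if 1 ≤ d n then blockLaw (half (n := n)) (p n)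
        else blockLaw (fun e : Pairs n => e) (p n), ?_, ?_⟩
      · intro n
        simp only
        split_ifs with h
        · exact isDDependent_half n (d n) h (h01 n).1 (h01 n).2
        · exact isDDependent_id n (d n) (h01 n).1 (h01 n).2
      · have hr : Tendsto (fun n => p n / (1 / (n : ℝ) ^ 2)) atTop atTop := by
          have h1 : Tendsto (fun n => L n (d n) / p n) atTop (𝓝 0) :=
            div_tendsto (hppos.mono fun n hn => hn.ne') hL
          have h2 : Tendsto (fun n => L n (d n) / p n) atTop (𝓝[>] 0) := by
            rw [tendsto_nhdsWithin_iff]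
            refine ⟨h1, ?_⟩
            filter_upwards [hLpos, hppos] with n h1 h2
            exact div_pos h1 h2
          have h3 := h2.inv_tendsto_nhdsGT_zero
          refine h3.congr' ?_
          filter_upwards [hd1] with n hn
          simp only [Pi.inv_apply]
          unfold L
          rw [if_neg (by omega), inv_div]
        have hr2 : Tendsto (fun n => ENNReal.ofReal (1 - Real.exp (-(p n / (1 / (n : ℝ) ^ 2) / 32))))
            atTop (𝓝 1) := by
          have h1 : Tendsto (fun n => p n / (1 / (n : ℝ) ^ 2) / 32) atTop atTop :=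
            hr.atTop_div_const (by norm_num)
          have h2 := Real.tendsto_exp_neg_atTop_nhds_zero.comp h1
          have h3 := ofReal_tendsto (h2.const_sub 1)
          simpa using h3
        refine tendsto_of_tendsto_of_tendsto_of_le_of_le' hr2 tendsto_const_nhds ?_ ?_
        · filter_upwards [hd1, ev4] with n hn h4
          simp only [if_pos hn]
          exact has_bound h4 (h01 n).1 (h01 n).2
        · filter_upwards with n
          have : IsProbabilityMeasure (if 1 ≤ d n then blockLaw (half (n := n)) (p n)
            else blockLaw (fun e : Pairs n => e) (p n)) := by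
            split_ifs
            · exact blockLaw_prob _ (h01 n).1 (h01 n).2
            · exact blockLaw_prob _ (h01 n).1 (h01 n).2
          exact prob_le_one
    · -- a law that lacks the property
      refine ⟨fun n => if (d n : ℝ) + 1 ≤ a n then blockLaw (fun e : Pairs n => e) (p n)
        else blockLaw (chunk (n := n) (d n)) (p n), ?_, ?_⟩
      · intro n
        simp only
        split_ifs with h
        · exact isDDependent_id n (d n) (h01 n).1 (h01 n).2
        · exact isDDependent_chunk n (d n) (h01 n).1 (h01 n).2
      · have hUpos : ∀ᶠ n in atTop, U n (d n) ≠ 0 :=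
          ev1.mono fun n hn => ((L_pos hn (d n)).trans_le (L_le_U n (d n))).ne'
        have hr : Tendsto (fun n => p n / U n (d n)) atTop (𝓝 0) := div_tendsto hUpos hU
        have hr2 : Tendsto (fun n => ENNReal.ofReal (2 * (p n / U n (d n)) +
            (p n / U n (d n)) ^ 2)) atTop (𝓝 0) := by
          have := ofReal_tendsto ((hr.const_mul 2).add (hr.pow 2))
          simpa using this
        have hdn : ∀ᶠ n in atTop, d n + 1 ≤ n ^ 2 := by
          obtain ⟨C, hC⟩ := hd.bound
          have hlog : ∀ᶠ n : ℕ in atTop, 1 ≤ Real.log n :=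
            (Real.tendsto_log_atTop.comp tendsto_natCast_atTop_atTop).eventually_ge_atTop 1
          obtain ⟨K, hK⟩ := exists_nat_ge (max C 0 + 1)
          filter_upwards [hC, hlog, ev1, eventually_ge_atTop K] with n hn hl hn1 hnK
          have hn1r : (1 : ℝ) ≤ n := by exact_mod_cast hn1
          have hnKr : (K : ℝ) ≤ n := by exact_mod_cast hnK
          have h1 : (0 : ℝ) ≤ (n : ℝ) / Real.log n := by positivity
          rw [Real.norm_of_nonneg (Nat.cast_nonneg _), Real.norm_of_nonneg h1] at hn
          have h2 : (n : ℝ) / Real.log n ≤ n := div_le_self (by linarith) hl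
          have h3 : (d n : ℝ) ≤ max C 0 * n :=
            hn.trans (mul_le_mul (le_max_left _ _) h2 h1 (le_max_right _ _))
          have h4 : (d n : ℝ) + 1 ≤ (n : ℝ) ^ 2 := by nlinarith [le_max_right C 0]
          exact_mod_cast h4
        refine tendsto_of_tendsto_of_tendsto_of_le_of_le' tendsto_const_nhds hr2 ?_ ?_
        · exact Eventually.of_forall fun n => zero_le
        · filter_upwards [ev1, hdn] with n hn1 hdn
          split_ifs with hc
          · refine (lacks_of_zero hn1 (h01 n).1
              (isDDependent_id n 0 (h01 n).1 (h01 n).2)).trans (ENNReal.ofReal_le_ofReal ?_)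
            unfold U
            rw [max_eq_left hc]
            have : 0 ≤ p n / (a n / (n : ℝ) ^ 2) :=
              div_nonneg (h01 n).1 (div_nonneg (a_nonneg n) (by positivity))
            linarith
          · refine (chunk_bound hn1 hdn (h01 n).1 (h01 n).2).trans (ENNReal.ofReal_le_ofReal ?_)
            unfold U
            rw [max_eq_right (not_le.1 hc).le]
            have := sq_nonneg (p n / (((d n : ℝ) + 1) / (n : ℝ) ^ 2))
            linarith

theorem ratio_tendsto : Tendsto (fun n => U n 1 / L n 1) atTop atTop := by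
  have h1 : Tendsto a atTop atTop :=
    (tendsto_rpow_atTop (by norm_num : (0 : ℝ) < 1 / 4)).comp tendsto_natCast_atTop_atTop
  refine tendsto_atTop_mono' _ ?_ h1
  filter_upwards [eventually_ge_atTop 1] with n hn
  have hnr : (1 : ℝ) ≤ n := by exact_mod_cast hn
  unfold U L
  rw [if_neg one_ne_zero, div_div_div_cancel_right₀ (by positivity), div_one]
  exact le_max_left _ _

theorem not_bound : ¬ ∃ f : ℕ → ℝ, ∀ d : ℕ,
    (fun n => U n d / L n d) =O[atTop] (fun _ : ℕ => f d) := by
  rintro ⟨f, hf⟩
  obtain ⟨C, hC⟩ := (hf 1).bound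
  have h1 := ratio_tendsto.eventually_gt_atTop (C * ‖f 1‖)
  obtain ⟨n, h2, h3⟩ := (hC.and h1).exists
  have := (Real.le_norm_self _).trans h2
  linarith

/-- Q1 has a negative answer. The first part gives a monotone graph property with a threshold pair
`(L, U)` such that already for the constant sequence `d = 1` the ratio `U / L` tends to infinity,
so that `U(n, d) / L(n, d)` is not `O(f(d))` for any function `f` of `d` alone, even if only
constant `d` are considered. The second part is the negation of the statement of Q1. -/
theorem result :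
    (∃ (P : ∀ n : ℕ, SimpleGraph (Fin n) → Prop) (L U : ℕ → ℕ → ℝ),
      IsMonotoneProperty P ∧ IsThresholdPair P L U ∧
      Tendsto (fun n => U n 1 / L n 1) atTop atTop ∧
      ¬ ∃ f : ℕ → ℝ, ∀ d : ℕ, (fun n => U n d / L n d) =O[atTop] (fun _ : ℕ => f d)) ∧
    ¬ ∀ (P : ∀ n : ℕ, SimpleGraph (Fin n) → Prop) (L U : ℕ → ℕ → ℝ),
      IsMonotoneProperty P → IsThresholdPair P L U →
      ∃ f : ℕ → ℝ, ∀ d : ℕ, (fun n => U n d / L n d) =O[atTop] (fun _ : ℕ => f d) :=
  ⟨⟨CherryOrMany, L, U, isMonotoneProperty, isThresholdPair, ratio_tendsto, not_bound⟩,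
    fun h => not_bound (h CherryOrMany L U isMonotoneProperty isThresholdPair)⟩

end Pool.Agent.Results.MP_cca6ac_pr.GapNotFunctionOfD
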